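import Pool.Agent.R922.PresSol

/-!
# A connected one-dimensional low₄-presented Polish space without computable presentation

For a set `D` of natural numbers let `X_D` be the solenoid, the inverse limit of circles whose
`n`-th bonding map is the multiplication by `q n = 2 ^ 2 ^ n + 1` if `n ∈ D` and the identity
otherwise. It is compact, connected and has covering dimension at most one, and it has a
`D`-computable presentation. The first projection `X_D → ℝ / ℤ` is divisible by `q j` in the group
of continuous maps to the circle if and only if `j ∈ D`, and for a computably presented copy of
`X_D` the divisibility of the corresponding map is a `Σ⁰₃` condition (there is a finite net, and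
approximate values of the quotient on it); so if a homeomorphic copy of `X_D` has a computable
presentation then `D` is computable in the third jump of the empty set. Finally there is a set `D`,
generic relative to the third jump of the empty set and computable in the fourth one, whose fourth
jump is Turing equivalent to the fourth jump of the empty set, and which is not computable in the
third one.

This answers Q2, and hence Q1, positively. The plan of this proof is due to helper602; the theory of
relative enumerability and of generic sets is the one of helper578.
-/

set_option autoImplicit false

namespace Pool.Agent.Results.MP_f0c992_lc.LowFourSolenoid

open Pool.Agent.Helper578.JD Pool.Agent.R922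

/-- There is a compact connected space `X` of covering dimension at most one which has a
`D`-computable presentation (so it is Polish) for some set `D` of low₄ degree, such that no space
homeomorphic to `X` has a computable presentation. -/
theorem result : ∃ (X : Type) (_ : TopologicalSpace X),
    CompactSpace X ∧ ConnectedSpace X ∧ CoveringDimLE X 1 ∧
    (∃ D : Set ℕ, deg (jump^[4] D) = deg (jump^[4] ∅) ∧ Presented D X) ∧
    ∀ (Y : Type) [TopologicalSpace Y], Nonempty (X ≃ₜ Y) → ¬ Presented ∅ Y := by
  obtain ⟨D, hD, hD3⟩ := exists_low4
  refine ⟨Sol D, inferInstance, inferInstance, inferInstance, covering_dim D,
    ⟨D, hD, presented_Sol D⟩, ?_⟩
  intro Y _ ⟨e⟩ h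
  exact hD3 (Red_of_presented e h)

end Pool.Agent.Results.MP_f0c992_lc.LowFourSolenoid
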